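import Mathlib
import Pool.Agent.W443.J6.Stms

/-! Project J6, part ED: the next edge. -/

set_option autoImplicit false

open MvPolynomial Pool.Agent.H938R2.JC Pool.Agent.W443.J5 Pool.Agent.W443.J6

namespace Pool.Agent.W22.J6ED

universe u

section
variable {k : Type u} [Field k]

theorem coeff_dh (w0 w1 d : ℤ) (f : MvPolynomial (Fin 2) k) (j : ℕ) :
    (dh w0 w1 d f).coeff j =
      ∑ m ∈ f.support.filter (fun m => w0 * (m 0 : ℤ) + w1 * (m 1 : ℤ) = d),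
        if j = m 1 then coeff m f else 0 := by
  unfold dh part
  rw [map_sum, Polynomial.finsetSum_coeff]
  refine Finset.sum_congr rfl fun m _ => ?_
  rw [aeval_monomial, Finsupp.prod_fintype _ _ (by simp), Fin.prod_univ_two]
  simp only [Matrix.cons_val_zero, Matrix.cons_val_one, one_pow, one_mul]
  rw [Polynomial.algebraMap_eq, Polynomial.coeff_C_mul_X_pow]

theorem dh_ne {w0 w1 d : ℤ} {f : MvPolynomial (Fin 2) k} {j : ℕ}
    (h : (dh w0 w1 d f).coeff j ≠ 0) :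
    ∃ m, coeff m f ≠ 0 ∧ w0 * (m 0 : ℤ) + w1 * (m 1 : ℤ) = d ∧ m 1 = j := by
  rw [coeff_dh] at h
  obtain ⟨m, hm, h1⟩ := Finset.exists_ne_zero_of_sum_ne_zero h
  rw [Finset.mem_filter, mem_support_iff] at hm
  by_cases h2 : j = m 1
  · exact ⟨m, hm.1, hm.2, h2.symm⟩
  · rw [if_neg h2] at h1
    exact absurd rfl h1

theorem dh_coeff {w0 w1 d : ℤ} (hw : 0 < w0) {f : MvPolynomial (Fin 2) k} {m : Fin 2 →₀ ℕ}
    (h1 : coeff m f ≠ 0) (h2 : w0 * (m 0 : ℤ) + w1 * (m 1 : ℤ) = d) :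
    (dh w0 w1 d f).coeff (m 1) = coeff m f := by
  rw [coeff_dh, Finset.sum_eq_single m]
  · rw [if_pos rfl]
  · intro m' hm' hne
    rw [if_neg]
    intro h3
    rw [Finset.mem_filter] at hm'
    apply hne
    rw [ext_iff']
    refine ⟨?_, h3.symm⟩
    have h4 : w0 * (m' 0 : ℤ) = w0 * (m 0 : ℤ) := by
      have := hm'.2
      rw [← h3] at this
      linarith
    have h5 := mul_left_cancel₀ hw.ne' h4
    exact_mod_cast h5
  · intro h
    exact absurd (Finset.mem_filter.2 ⟨mem_support_iff.2 h1, h2⟩) h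

end

/-- the smallest slope -/
theorem slope {X : Type*} (T : Finset X) (hT : T.Nonempty) (A B : X → ℕ) (hB : ∀ x ∈ T, 1 ≤ B x) :
    ∃ x ∈ T, ∀ y ∈ T, A x * B y ≤ A y * B x := by
  obtain ⟨x, hx, hmin⟩ := Finset.exists_min_image T (fun x => (A x : ℚ) / B x) hT
  refine ⟨x, hx, fun y hy => ?_⟩
  have h1 := hmin y hy
  have h2 := hB x hx
  have h3 := hB y hy
  rw [div_le_div_iff₀ (by exact_mod_cast h2) (by exact_mod_cast h3)] at h1
  exact_mod_cast h1

theorem main (hDH : S_DH.{u}) (hE2 : S_E2.{u}) : S_ED.{u} := by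
  intro k _ _ _ f g a b p q ρ0 σ0 ha hb hab hbad hsim hρ0 hσ0 hpq hlow
  obtain ⟨⟨c, hc, hJ⟩, hng⟩ := hbad
  obtain ⟨i, hi, hcoef⟩ : ∃ i, 2 ≤ i ∧ coeff (e i 0) f ≠ 0 := by
    by_contra h
    push Not at h
    exact hng (line hJ hc h)
  obtain ⟨hcpq, hl⟩ := hlow
  have haq : 0 < a * q := Nat.mul_pos (by omega) (by omega)
  -- monomials below
  have hbel : ∀ m, coeff m f ≠ 0 → m 1 < a * q →
      (ρ0 : ℤ) * (m 0 : ℤ) - σ0 * (m 1 : ℤ) < ρ0 * ((a * p : ℕ) : ℤ) - σ0 * ((a * q : ℕ) : ℤ) := by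
    intro m hm h1
    rcases hl m hm with h2 | h2
    · linarith
    · omega
  have hbel0 : ∀ m, coeff m f ≠ 0 → m 1 < a * q → m 0 < a * p := by
    intro m hm h1
    have h2 := hbel m hm h1
    by_contra h3
    push Not at h3
    have h4 : (ρ0 : ℤ) * ((a * p : ℕ) : ℤ) ≤ ρ0 * (m 0 : ℤ) :=
      mul_le_mul_of_nonneg_left (by exact_mod_cast h3) (by positivity)
    have h5 : (σ0 : ℤ) * (m 1 : ℤ) ≤ σ0 * ((a * q : ℕ) : ℤ) :=
      mul_le_mul_of_nonneg_left (by exact_mod_cast h1.le) (by positivity)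
    linarith
  set T := f.support.filter (fun m => m 1 < a * q) with hT
  have hTmem : ∀ m, m ∈ T ↔ coeff m f ≠ 0 ∧ m 1 < a * q := by
    intro m
    rw [hT, Finset.mem_filter, mem_support_iff]
  have hi0T : e i 0 ∈ T := by
    rw [hTmem]
    exact ⟨hcoef, by simpa using haq⟩
  obtain ⟨m, hmT, hmin⟩ := slope T ⟨_, hi0T⟩ (fun m => a * p - m 0) (fun m => a * q - m 1) (by
    intro x hx
    rw [hTmem] at hx
    omega)
  rw [hTmem] at hmT
  obtain ⟨hm, hm1⟩ := hmT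
  have hm0 := hbel0 m hm hm1
  set A := a * p - m 0 with hA
  set B := a * q - m 1 with hB
  have hA1 : 1 ≤ A := by omega
  have hB1 : 1 ≤ B := by omega
  obtain ⟨σ, ρ, hcop, hσA, hρB⟩ := Nat.exists_coprime A B
  set G := Nat.gcd A B with hG
  have hG1 : 0 < G := Nat.gcd_pos_of_pos_left _ hA1
  have hσ1 : 1 ≤ σ := by
    rcases Nat.eq_zero_or_pos σ with h | h
    · rw [h, zero_mul] at hσA; omega
    · exact h
  have hρ1 : 1 ≤ ρ := by
    rcases Nat.eq_zero_or_pos ρ with h | h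
    · rw [h, zero_mul] at hρB; omega
    · exact h
  -- slopes
  have hsl : ∀ m' : Fin 2 →₀ ℕ, coeff m' f ≠ 0 → m' 1 < a * q →
      (σ : ℤ) * ((a * q : ℕ) - (m' 1 : ℤ)) ≤ ρ * ((a * p : ℕ) - (m' 0 : ℤ)) := by
    intro m' hm' h1
    have h2 := hmin m' ((hTmem m').2 ⟨hm', h1⟩)
    have h3 := hbel0 m' hm' h1
    rw [hσA, hρB] at h2
    have h4 : σ * (a * q - m' 1) ≤ ρ * (a * p - m' 0) := by
      refine Nat.le_of_mul_le_mul_right (c := G) ?_ hG1
      calc σ * (a * q - m' 1) * G = σ * G * (a * q - m' 1) := by ring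
        _ ≤ (a * p - m' 0) * (ρ * G) := h2
        _ = ρ * (a * p - m' 0) * G := by ring
    have h5 : ((σ * (a * q - m' 1) : ℕ) : ℤ) ≤ ((ρ * (a * p - m' 0) : ℕ) : ℤ) := by
      exact_mod_cast h4
    rw [Nat.cast_mul, Nat.cast_mul, Nat.cast_sub h1.le, Nat.cast_sub h3.le] at h5
    exact h5
  have hσρ : σ < ρ := by
    have h1 := hmin _ hi0T
    have h2 := hbel0 _ hcoef (by simpa using haq)
    simp only [e_zero, e_one, Nat.sub_zero] at h1 h2
    rw [hσA, hρB] at h1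
    have h3 : σ * (a * q) ≤ ρ * (a * p - i) := by
      refine Nat.le_of_mul_le_mul_right (c := G) ?_ hG1
      calc σ * (a * q) * G = σ * G * (a * q) := by ring
        _ ≤ (a * p - i) * (ρ * G) := h1
        _ = ρ * (a * p - i) * G := by ring
    have h4 : a * p - i < a * q := by
      have : a * p < a * q := Nat.mul_lt_mul_of_pos_left hpq (by omega)
      omega
    have h5 : ρ * (a * p - i) < ρ * (a * q) := Nat.mul_lt_mul_of_pos_left h4 hρ1
    exact Nat.lt_of_mul_lt_mul_right (lt_of_le_of_lt h3 h5)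
  set D : ℤ := ρ * ((a * p : ℕ) : ℤ) - σ * ((a * q : ℕ) : ℤ) with hD
  have hmD : (ρ : ℤ) * (m 0 : ℤ) - σ * (m 1 : ℤ) = D := by
    have h1 : (A : ℤ) = ((a * p : ℕ) : ℤ) - m 0 := by rw [hA, Nat.cast_sub hm0.le]
    have h2 : (B : ℤ) = ((a * q : ℕ) : ℤ) - m 1 := by rw [hB, Nat.cast_sub hm1.le]
    have h3 : (ρ : ℤ) * A = σ * B := by
      rw [hσA, hρB]
      push_cast
      ring
    rw [h1, h2] at h3
    rw [hD]
    linarith
  have hs0 : (σ0 : ℤ) * ρ < ρ0 * σ := by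
    have h1 := hbel m hm hm1
    have h3 : (σ0 : ℤ) * (ρ * G) < ρ0 * (σ * G) := by
      have h4 : (A : ℤ) = ((a * p : ℕ) : ℤ) - m 0 := by rw [hA, Nat.cast_sub hm0.le]
      have h5 : (B : ℤ) = ((a * q : ℕ) : ℤ) - m 1 := by rw [hB, Nat.cast_sub hm1.le]
      have h6 : (σ * G : ℤ) = A := by rw [hσA]; push_cast; ring
      have h7 : (ρ * G : ℤ) = B := by rw [hρB]; push_cast; ring
      rw [h6, h7, h4, h5]
      linarith
    have h4 : (0 : ℤ) < G := by exact_mod_cast hG1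
    have h5 : (σ0 : ℤ) * ρ * G < ρ0 * σ * G := by rw [mul_assoc, mul_assoc]; exact h3
    exact lt_of_mul_lt_mul_right h5 h4.le
  have hupp : Upp (ρ : ℤ) (-(σ : ℤ)) (a * p) (a * q) f := by
    refine ⟨hcpq, fun m' hm' => ?_⟩
    rcases lt_or_ge (m' 1) (a * q) with h1 | h1
    · have h2 := hsl m' hm' h1
      rcases lt_or_eq_of_le h2 with h3 | h3
      · left; linarith
      · right; exact ⟨by linarith, h1.le⟩
    · have h2 : (ρ0 : ℤ) * ((m' 0 : ℤ) - (a * p : ℕ)) ≤ σ0 * ((m' 1 : ℤ) - (a * q : ℕ)) := by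
        rcases hl m' hm' with h2 | h2
        · linarith
        · linarith [h2.1]
      have h3 : (0 : ℤ) ≤ (m' 1 : ℤ) - (a * q : ℕ) := by
        have : ((a * q : ℕ) : ℤ) ≤ m' 1 := by exact_mod_cast h1
        linarith
      have hρp : (0 : ℤ) < ρ := by exact_mod_cast hρ1
      have hρ0p : (0 : ℤ) < ρ0 := by exact_mod_cast hρ0
      have h4 : (ρ0 : ℤ) * (ρ * ((m' 0 : ℤ) - (a * p : ℕ))) ≤
          σ0 * ρ * ((m' 1 : ℤ) - (a * q : ℕ)) := by
        have := mul_le_mul_of_nonneg_left h2 hρp.le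
        linarith
      rcases eq_or_lt_of_le h3 with h5 | h5
      · have h6 : (ρ0 : ℤ) * (ρ * ((m' 0 : ℤ) - (a * p : ℕ))) ≤ ρ0 * 0 := by
          rw [← h5] at h4
          linarith
        have h7 := le_of_mul_le_mul_left h6 hρ0p
        have h8 : ((m' 1 : ℕ) : ℤ) = (a * q : ℕ) := by linarith
        have h9 : m' 1 = a * q := by exact_mod_cast h8
        rcases lt_or_eq_of_le h7 with h10 | h10
        · left; rw [h9]; linarith
        · right; exact ⟨by rw [h9]; linarith, h9.le⟩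
      · left
        have h6 : (σ0 : ℤ) * ρ * ((m' 1 : ℤ) - (a * q : ℕ)) <
            ρ0 * σ * ((m' 1 : ℤ) - (a * q : ℕ)) := mul_lt_mul_of_pos_right hs0 h5
        have h7 : (ρ0 : ℤ) * (ρ * ((m' 0 : ℤ) - (a * p : ℕ))) <
            ρ0 * (σ * ((m' 1 : ℤ) - (a * q : ℕ))) := by linarith
        have h8 := lt_of_mul_lt_mul_left h7 hρ0p.le
        linarith
  have htop : ∀ m', coeff m' f ≠ 0 → (ρ : ℤ) * (m' 0 : ℤ) + -(σ : ℤ) * (m' 1 : ℤ) ≤ D := by
    intro m' hm'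
    rcases hupp.2 m' hm' with h | h
    · rw [hD]; linarith
    · rw [hD]; linarith [h.1]
  have hD0 : 0 < D := by
    have h1 := htop _ hcoef
    simp only [e_zero, e_one, Nat.cast_zero, mul_zero, add_zero] at h1
    have h2 : (0 : ℤ) < ρ * i := by positivity
    linarith
  -- the lowest monomial
  obtain ⟨n, hn, hnmin⟩ := Finset.exists_min_image
    (f.support.filter fun m' => (ρ : ℤ) * (m' 0 : ℤ) + -(σ : ℤ) * (m' 1 : ℤ) = D) (fun m' => m' 1)
    ⟨m, by rw [Finset.mem_filter, mem_support_iff]; exact ⟨hm, by linarith⟩⟩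
  rw [Finset.mem_filter, mem_support_iff] at hn
  obtain ⟨hn, hnD⟩ := hn
  have hn1 : n 1 < a * q :=
    lt_of_le_of_lt (hnmin m (by rw [Finset.mem_filter, mem_support_iff]; exact ⟨hm, by linarith⟩)) hm1
  have hlown : Low (ρ : ℤ) (-(σ : ℤ)) (n 0) (n 1) f := by
    refine ⟨by rw [← eq_e]; exact hn, fun m' hm' => ?_⟩
    rcases lt_or_eq_of_le (htop m' hm') with h | h
    · left; rw [hnD]; exact h
    · right
      rw [hnD]
      exact ⟨h, hnmin m' (by rw [Finset.mem_filter, mem_support_iff]; exact ⟨hm', h⟩)⟩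
  have hρp : (0 : ℤ) < ρ := by exact_mod_cast hρ1
  obtain ⟨p', q', hp', hq', _⟩ := hsim.2.1 _ _ hρp _ _ hlown
  have hp1 : 1 ≤ p' := by
    rcases Nat.eq_zero_or_pos p' with h | h
    · exfalso
      rw [hp', hq', h] at hnD
      have : (0 : ℤ) ≤ σ * ((a * q' : ℕ) : ℤ) := by positivity
      push_cast at hnD this
      linarith
    · exact h
  -- the polynomial
  set α := dh (ρ : ℤ) (-(σ : ℤ)) D f with hα
  have hcV : α.coeff (n 1) ≠ 0 := by
    rw [hα, dh_coeff hρp hn hnD]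
    exact hn
  have hcQ : α.coeff (a * q) ≠ 0 := by
    have h1 : coeff (e (a * p) (a * q)) f ≠ 0 := hcpq
    have h2 := dh_coeff (d := D) (w1 := -(σ : ℤ)) hρp h1
      (by rw [e_zero, e_one, hD]; ring)
    rw [e_one] at h2
    rw [hα, h2]
    exact h1
  have hdeg : 0 < α.natDegree := lt_of_lt_of_le haq (Polynomial.le_natDegree_of_ne_zero hcQ)
  have hσρ' : (σ : ℤ) < ρ := by exact_mod_cast hσρ
  obtain ⟨φ, hφ⟩ := hDH k f g c hc hJ ρ (-σ) D hρp (by linarith) hD0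
    ⟨htop, n, hn, hnD⟩ hdeg
  have hsup : ∀ j, α.coeff j ≠ 0 → n 1 ≤ j ∧ j ≤ a * q ∧ (ρ : ℤ) ∣ (j : ℤ) - (n 1 : ℕ) := by
    intro j hj
    obtain ⟨m', hm', h1, h2⟩ := dh_ne hj
    refine ⟨?_, ?_, ?_⟩
    · rw [← h2]
      exact hnmin m' (by rw [Finset.mem_filter, mem_support_iff]; exact ⟨hm', h1⟩)
    · rw [← h2]
      rcases hupp.2 m' hm' with h | h
      · exfalso
        have h3 : (ρ : ℤ) * ((a * p : ℕ) : ℤ) + -(σ : ℤ) * ((a * q : ℕ) : ℤ) = D := by
          rw [hD]; ring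
        rw [h3, h1] at h
        exact lt_irrefl _ h
      · exact h.2
    · have h3 : (ρ : ℤ) * (m' 0 : ℤ) - ρ * (n 0 : ℤ) = σ * ((j : ℤ) - (n 1 : ℕ)) := by
        rw [← h2]
        linarith
      have h4 : (ρ : ℤ) ∣ σ * ((j : ℤ) - (n 1 : ℕ)) := by
        rw [← h3]
        exact ⟨(m' 0 : ℤ) - n 0, by ring⟩
      have h5 : IsCoprime (ρ : ℤ) (σ : ℤ) := Nat.isCoprime_iff_coprime.2 hcop.symm
      exact h5.dvd_of_dvd_mul_left h4
  obtain ⟨hne, h, hh1, hh⟩ := hE2 k α φ ρ σ (n 1) (a * q) (n 0 : ℕ) ((a * p : ℕ) : ℤ) D hσ1 hσρ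
    hD0 hn1 hcV hcQ hsup (by rw [← hnD]; ring) hD (by rw [sub_eq_add_neg]; exact hφ)
  have hq'q : q' < q := by
    rw [hq'] at hn1
    exact Nat.lt_of_mul_lt_mul_left hn1
  have haz : (a : ℤ) ≠ 0 := by
    have : 0 < a := by omega
    exact_mod_cast this.ne'
  have hpp : (ρ : ℤ) * ((p : ℤ) - p') = σ * ((q : ℤ) - q') := by
    rw [hp', hq', hD] at hnD
    push_cast at hnD
    apply mul_left_cancel₀ haz
    linarith
  obtain ⟨l, hl'⟩ : (ρ : ℤ) ∣ (q : ℤ) - q' := by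
    have h5 : IsCoprime (ρ : ℤ) (σ : ℤ) := Nat.isCoprime_iff_coprime.2 hcop.symm
    exact h5.dvd_of_dvd_mul_left ⟨_, hpp.symm⟩
  have hl0 : 0 < l := by
    have h6 : (0 : ℤ) < ρ * l := by
      rw [← hl']
      have : (q' : ℤ) < q := by exact_mod_cast hq'q
      linarith
    exact (mul_pos_iff_of_pos_left hρp).1 h6
  obtain ⟨l, rfl⟩ := Int.eq_ofNat_of_zero_le hl0.le
  have hpl : (p : ℤ) - p' = l * σ := by
    rw [hl'] at hpp
    apply mul_left_cancel₀ hρp.ne'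
    linarith
  refine ⟨ρ, σ, p', q', l, h, hσ1, hσρ, hcop.symm, by exact_mod_cast hl0, hh1, hp1, ?_, ?_, ?_, ?_,
    ?_, hupp⟩
  · have : (p : ℤ) = p' + l * σ := by linarith
    exact_mod_cast this
  · have : (q : ℤ) = q' + l * ρ := by linarith
    exact_mod_cast this
  · intro h6
    apply hne
    rw [hp', hq', h6]
  · rw [hD] at hh
    push_cast at hh
    apply mul_left_cancel₀ haz
    linarith
  · rw [← hp', ← hq']
    exact hlown

end Pool.Agent.W22.J6ED
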